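import Pool.Agent.U503.SPR.Stm
import Pool.Agent.U293.HP.ALG

/-!
# Project SPR, package A2: folding a power into the product of the translates
-/

set_option autoImplicit false

open scoped commutatorElement

namespace Pool.Agent.U55.SPR.A2

open Pool.Agent.U293.HP

variable {G : Type} [Group G]

theorem op_const (L N : ℕ) (h : G) : op L (fun _ => h ^ N) = h ^ (L * N) := by
  induction L with
  | zero => simp [op]
  | succ n ih => rw [op_succ, ih, ← pow_add]; congr 1; ring

section comm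

variable {g : G} {L : ℕ} {K : Subgroup G}
  (hC : ∀ i < L, ∀ j < L, i ≠ j → ∀ a ∈ K, ∀ b ∈ K,
    Commute (g ^ i * a * (g ^ i)⁻¹) (g ^ j * b * (g ^ j)⁻¹))

include hC

theorem pr_pow {h : G} (hh : h ∈ K) (N : ℕ) :
    pr g (fun _ => h ^ N) L = (pr g (fun _ => h) L) ^ N := by
  induction N with
  | zero =>
    simp only [pow_zero]
    exact pr_one g L
  | succ N ih =>
    have h1 := pr_mul hC (u := fun _ => h ^ N) (v := fun _ => h) (fun _ => K.pow_mem hh N)
      (fun _ => hh) L le_rfl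
    simp only [pow_succ]
    rw [h1, ih]

theorem one_step (hL : 1 ≤ L) {h : G} (hh : h ∈ K) (N : ℕ) :
    ∃ F : ℕ → G, (∀ i, F i ∈ K) ∧
      h ^ (L * N) = (pr g (fun _ => h) L) ^ N * ⁅pr g F L, g⁆ := by
  obtain ⟨F, hF, h1⟩ := fold hC hL (f := fun _ => h ^ N) (fun _ => K.pow_mem hh N)
  refine ⟨fun i => F (i + 1), fun i => hF (i + 1), ?_⟩
  rw [← op_const, h1, pr_pow hC hh N]

end comm

theorem conj_comm (Y P g : G) : Y * ⁅P, g⁆ = ⁅Y * P * Y⁻¹, Y * g * Y⁻¹⁆ * Y := by
  simp only [commutatorElement_def]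
  group

theorem t_A2 : Pool.Agent.U503.SPR.S_A2 := by
  intro G _ Γ L M K κ hL hK hκ hsh hC h h0 hs
  have hpr : ∀ s < M, h (s + 1) = pr (κ s) (fun _ => h s) L := by
    intro s hsM
    rw [hs s hsM]
    unfold pr
    rw [op_ofFn]
  have hmem : ∀ s ≤ M, h s ∈ K s := by
    intro s
    induction s with
    | zero => intro _; exact h0
    | succ s ih =>
      intro hsM
      rw [hpr s (by omega)]
      exact op_mem _ _ fun i hi => hsh s (by omega) i hi _ (ih (by omega))
  have key : ∀ s ≤ M, ∀ N : ℕ, ∃ A B : ℕ → G, (∀ t, A t ∈ Γ ∧ B t ∈ Γ) ∧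
      h 0 ^ (L ^ s * N) = op s (fun t => ⁅A t, B t⁆) * h s ^ N := by
    intro s
    induction s with
    | zero =>
      intro _ N
      exact ⟨fun _ => 1, fun _ => 1, fun _ => ⟨Γ.one_mem, Γ.one_mem⟩, by simp [op]⟩
    | succ s ih =>
      intro hsM N
      obtain ⟨A, B, hAB, hop⟩ := ih (by omega) (L * N)
      obtain ⟨F, hF, h1⟩ := one_step (hC s (by omega)) hL (hmem s (by omega)) N
      rw [← hpr s (by omega), conj_comm] at h1
      have hY : h (s + 1) ^ N ∈ Γ := Γ.pow_mem (hK _ hsM (hmem _ hsM)) N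
      have hP : pr (κ s) F L ∈ Γ := by
        refine hK (s + 1) hsM ?_
        exact op_mem _ _ fun i hi => hsh s (by omega) i hi _ (hF i)
      refine ⟨fun t => if t < s then A t else h (s + 1) ^ N * pr (κ s) F L * (h (s + 1) ^ N)⁻¹,
        fun t => if t < s then B t else h (s + 1) ^ N * κ s * (h (s + 1) ^ N)⁻¹, fun t => ?_, ?_⟩
      · beta_reduce
        split_ifs with ht
        · exact hAB t
        · exact ⟨Γ.mul_mem (Γ.mul_mem hY hP) (Γ.inv_mem hY),
            Γ.mul_mem (Γ.mul_mem hY (hκ s (by omega))) (Γ.inv_mem hY)⟩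
      · rw [op_succ]
        beta_reduce
        rw [if_neg (lt_irrefl s), if_neg (lt_irrefl s), mul_assoc, ← h1, pow_succ, mul_assoc, hop]
        congr 1
        refine op_congr _ fun t ht => ?_
        beta_reduce
        rw [if_pos ht, if_pos ht]
  obtain ⟨A, B, hAB, hop⟩ := key M le_rfl 1
  refine ⟨fun t => A t, fun t => B t, fun t => hAB t, hK M le_rfl (hmem M le_rfl), ?_⟩
  rw [mul_one, pow_one] at hop
  rw [hop, op_ofFn]

end Pool.Agent.U55.SPR.A2
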